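import Pool.Agent.Helper33.QB.Defs

/-!
# Project QB: definitions for the limit lemma
-/

set_option autoImplicit false

namespace Pool.Agent.Helper33.QB

open Set

universe v

variable {Ω : Type} {I : Type v}

/-- A set of words which contains the tails of its members. -/
def TailC [DecidableEq I] (W : Set (FreeGroup I)) : Prop :=
  ∀ w ∈ W, ∀ a t, w.toWord = a :: t → FreeGroup.mk t ∈ W

/-- The words which are eventually defined at `xn`. -/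
def R0 (p : Cnd Ω I) (xn : ℕ → Ω) : Set (FreeGroup I) :=
  {w | ∃ N : ℕ, ∀ n ≥ N, ∃ y, Acts (Full p) w (xn n) y}

/-- The setting of the limit lemma: `p` is the union of the decreasing sequence `pn`, `xn n` is a
point of the `n`-th interval, `pt n w` is the value of the word `w` at `xn n`, and every word is
either eventually defined with bounded rank or eventually undefined. -/
structure LimSet (α : Ordinal.{0}) (pn : ℕ → Cnd Ω I) (p : Cnd Ω I) (xn : ℕ → Ω)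
    (pt : ℕ → FreeGroup I → Ω) : Prop where
  bn : ∀ n, Basic α (pn n)
  b : Basic α p
  le : ∀ n, Le (pn (n + 1)) (pn n)
  un : IsUn p pn
  x : ∀ n, xn n ∈ (pn (n + 1)).Y ∧ xn n ∉ (pn n).Y
  pt : ∀ n w y, Acts (Full p) w (xn n) y → pt n w = y
  st : ∀ w, (∃ N : ℕ, ∃ β : Ordinal.{0}, β < α ∧ ∀ n ≥ N, ∃ y, Acts (Full p) w (xn n) y ∧
      p.r y ≤ β) ∨ ∃ N : ℕ, ∀ n ≥ N, ∀ y, ¬ Acts (Full p) w (xn n) y

/-- The `n`-th interval. -/
def Itv (pn : ℕ → Cnd Ω I) (n : ℕ) : Set Ω := (pn (n + 1)).Y \ (pn n).Y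

/-- The neighbourhoods `K n w` of the points `pt n w`, with their eventual properties. -/
structure EK (pn : ℕ → Cnd Ω I) (p : Cnd Ω I) (xn : ℕ → Ω) (pt : ℕ → FreeGroup I → Ω)
    (K : ℕ → FreeGroup I → Set Ω) : Prop where
  e1 : ∀ w ∈ R0 p xn, ∃ N : ℕ, ∀ n ≥ N, K n w ∈ p.R ∧ K n w ⊆ Itv pn n ∧ pt n w ∈ K n w ∧
    ∀ y ∈ K n w, y ≠ pt n w → p.r y < p.r (pt n w)
  e2 : ∀ w ∈ R0 p xn, ∀ w' ∈ R0 p xn, ∀ m : ℕ, ∃ N : ℕ, ∀ n ≥ N, ∀ x ∈ K n w, ∀ y ∈ K n w', ∀ g,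
    Acts (New (pn m) p) g x y → g = w' * w⁻¹
  e3 : ∀ w ∈ R0 p xn, ∀ i ∈ p.S, ∃ N : ℕ, ∀ n ≥ N,
    K n (FreeGroup.of i * w) ∩ p.h i '' p.Y = p.h i '' K n w
  e4 : ∀ w ∈ R0 p xn, ∀ i ∈ p.S, (FreeGroup.of i)⁻¹ * w ∉ R0 p xn → ∃ N : ℕ, ∀ n ≥ N,
    K n w ∩ p.h i '' p.Y = ∅

open Classical in
/-- The semi-condition of the limit lemma: the new point `ν w` is the limit of the points
`pt n w`, with the neighbourhoods `{ν w} ∪ ⋃ m ≥ n, K m w`. -/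
noncomputable def limS (pn : ℕ → Cnd Ω I) (p : Cnd Ω I) (xn : ℕ → Ω) (pt : ℕ → FreeGroup I → Ω)
    (K : ℕ → FreeGroup I → Set Ω) (ν : FreeGroup I → Ω) : Cnd Ω I where
  Y := p.Y ∪ ν '' R0 p xn
  R := {O | O ⊆ p.Y ∪ ν '' R0 p xn ∧ (O \ p.Y).Finite ∧ (∀ m, O ∩ (pn m).Y ∈ (pn m).R) ∧
    ∃ n : ℕ, ∀ m ≥ n, O ∩ Itv pn m = ⋃ w ∈ {w | w ∈ R0 p xn ∧ ν w ∈ O}, K m w}
  r := fun x => if x ∈ p.Y then p.r x else
    if h : ∃ w ∈ R0 p xn, ν w = x then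
      sInf {ξ | ∃ N : ℕ, ∀ n ≥ N, p.r (pt n h.choose) < ξ} else 0
  S := p.S
  h := fun i x => if i ∈ p.S then (if x ∈ p.Y then p.h i x else
    if h : ∃ w ∈ R0 p xn, ν w = x then ν (FreeGroup.of i * h.choose) else x) else x

end Pool.Agent.Helper33.QB
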