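import Pool.Agent.Helper18.QB.Tall
import Pool.Agent.Helper9.QB.LimExt
import Pool.Agent.Helper28.QB.AddLetter
import Pool.Agent.Helper90.QB.Bel1
import Pool.Agent.Helper15.QB.VUnion

/-! # Project QB, module N2: the successor step of the extension lemma -/

set_option autoImplicit false

namespace Pool.Agent.Helper33.QB

open Set

universe v

variable {Ω : Type} {I : Type v} {α : Ordinal.{0}} [LinearOrder I] [WellFoundedLT I]
  {b : I → NmD Ω I} {i m : I}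

theorem ext_succ [Uncountable Ω] (hα : Ind α) (hE : ExtSpec α b m) {pn : ℕ → Cnd Ω I}
    {s : Cnd Ω I} (hpn : ∀ n, pn n ∈ VT α b) (hle : ∀ n, Le (pn (n + 1)) (pn n))
    (hs : Semi α pn s) {j : I} (hjm : j ≤ m) (hmi : m < i) (hm : m ∈ s.S)
    (hmax : ∀ l ∈ s.S, l < i → l ≤ m) {r : Cnd Ω I} (hr : r ∈ V α b j) (hB : Bel pn s j r)
    {K : Set Ω} (hK : K ∈ r.R) :
    ∃ q ∈ V α b i, Bel pn s i q ∧ Le (res q j) r ∧
      ∀ x ∈ K, ∀ y ∈ K, ∀ g, Acts (BG pn s i q) g x y → Acts (BG pn s j r) g x y := by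
  have hbn : ∀ n, Basic α (pn n) := fun n => by
    obtain ⟨i, hi⟩ := hpn n
    exact V.basic hi
  obtain ⟨q1, hq1, hB1, hle1, hc1⟩ := hE pn s hpn hle hs j hjm r hr hB K hK
  have hm' := hm
  rw [hs.S, mem_iUnion] at hm'
  obtain ⟨n, hn⟩ := hm'
  obtain ⟨i', hi'⟩ := hpn n
  obtain ⟨-, hni, hD, -⟩ := (mem_V.1 hi').2 m hn
  have hb1 := V.basic hq1
  have hbr := V.basic hr
  have hle2 : Le q1 (b m).c :=
    Le.trans' hb1 ((hbn n).res m) (bel_le hs hbn hle hb1 hB1 n) hD.1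
  obtain ⟨q2, hq2, hle3, hD2, r', hr', hT⟩ := tall_name hα (fun p hp => V.basic hp)
    (fun pn h1 h2 => V.union h1 h2) (lim_of_ext hα hE) hni hq1 hle2
  have hb2 := V.basic hq2
  have hinh := bel_inh hs hbn hb1 hb2 hB1 hle3
  have hKq1 : K ∈ q1.R := by
    have h1 : K ∈ (res q1 j).R := ((hle1.cp.ring K).1 hK).1
    exact h1
  have hKq2 : K ∈ q2.R := ((hle3.cp.ring K).1 hKq1).1
  obtain ⟨q', hq', hB', hres, hc'⟩ := add_letter hα hs hpn hle hm hq2 hinh.1 hD2 hr'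
    (fun ρ hρ K hK => by
      obtain ⟨x, hx, hxK, h⟩ := hT ρ hρ K hK
      exact ⟨x, ⟨hx.1, fun h => hx.2 (hB1.cp.sub h)⟩, hxK, h⟩) hKq2 hmi hmax
  refine ⟨q', hq', hB', ?_, ?_⟩
  · have h1 : Le (res q' j) (res q1 j) := by
      have h2 : res q' j = res q2 j := by
        rw [← hres, res_res hjm]
      rw [h2]
      exact hle3.res j
    exact Le.trans' ((V.basic hq').res j) (hb1.res j) h1 hle1
  · intro x hx y hy g h
    refine hc1 x hx y hy g (hinh.2 g x y ?_ (hc' x hx y hy g h))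
    exact hb1.gr.sub K hKq1 hx

end Pool.Agent.Helper33.QB
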