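import Pool.Agent.Helper93.QuotBAStone
import Pool.Agent.Helper26.SAMain

/-!
# Project QB: quotients by ideals and the ideals of `Helper26.SA`
-/

set_option autoImplicit false

open Cardinal Ordinal
open scoped symmDiff

namespace Pool.Agent.Helper33.QBConv

open Pool.Agent.Helper93 Pool.Agent.Helper26

variable {B : Type} [BooleanAlgebra B]

/-- The ideal, as a set of elements of `B`. -/
def st (J : Ideal (AsBoolRing B)) : Set B := {b | toBoolRing b ∈ J}

theorem mem_st {J : Ideal (AsBoolRing B)} {b : B} : b ∈ st J ↔ toBoolRing b ∈ J := Iff.rfl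

theorem quotMk_bot_iff {J : Ideal (AsBoolRing B)} {b : B} :
    QuotBA.quotMk J b = ⊥ ↔ b ∈ st J := by
  unfold QuotBA.quotMk
  rw [← toBoolAlg_zero, toBoolAlg_inj, Ideal.Quotient.eq_zero_iff_mem, mem_st]

theorem quotMk_surj {J : Ideal (AsBoolRing B)} : Function.Surjective (QuotBA.quotMk J) := by
  intro c
  obtain ⟨a, ha⟩ := Ideal.Quotient.mk_surjective (ofBoolAlg c)
  refine ⟨ofBoolRing a, ?_⟩
  unfold QuotBA.quotMk
  rw [toBoolRing_ofBoolRing, ha, toBoolAlg_ofBoolAlg]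

theorem quotMk_inf {J : Ideal (AsBoolRing B)} (a b : B) :
    QuotBA.quotMk J (a ⊓ b) = QuotBA.quotMk J a ⊓ QuotBA.quotMk J b := by
  unfold QuotBA.quotMk
  rw [toBoolRing_inf, map_mul, toBoolAlg_mul]

theorem quotMk_symmDiff {J : Ideal (AsBoolRing B)} (a b : B) :
    QuotBA.quotMk J (a ∆ b) = QuotBA.quotMk J a ∆ QuotBA.quotMk J b := by
  unfold QuotBA.quotMk
  rw [toBoolRing_symmDiff, map_add, toBoolAlg_add]

theorem quotMk_sup {J : Ideal (AsBoolRing B)} (a b : B) :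
    QuotBA.quotMk J (a ⊔ b) = QuotBA.quotMk J a ⊔ QuotBA.quotMk J b := by
  have h1 : ∀ {C : Type} [BooleanAlgebra C] (a b : C), a ⊔ b = (a ∆ b) ∆ (a ⊓ b) := by
    intro C _ a b
    rw [symmDiff_symmDiff_inf]
  rw [h1 a b, quotMk_symmDiff, quotMk_symmDiff, quotMk_inf, ← h1]

theorem quotMk_sdiff {J : Ideal (AsBoolRing B)} (a b : B) :
    QuotBA.quotMk J (a \ b) = QuotBA.quotMk J a \ QuotBA.quotMk J b := by
  have h1 : ∀ {C : Type} [BooleanAlgebra C] (a b : C), a \ b = a ∆ (a ⊓ b) := by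
    intro C _ a b
    rw [symmDiff_comm, symmDiff_of_le inf_le_left, sdiff_inf_self_left]
  rw [h1 a b, quotMk_symmDiff, quotMk_inf, ← h1]

theorem quotMk_eq_iff {J : Ideal (AsBoolRing B)} {a b : B} :
    QuotBA.quotMk J a = QuotBA.quotMk J b ↔ a ∆ b ∈ st J := by
  rw [← symmDiff_eq_bot, ← quotMk_symmDiff, quotMk_bot_iff]

theorem isAtom_iff {J : Ideal (AsBoolRing B)} {p : B} :
    IsAtom (QuotBA.quotMk J p) ↔ SA.AtomMod (st J) p := by
  constructor
  · intro h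
    refine ⟨fun hp => h.1 (quotMk_bot_iff.2 hp), fun c hc => ?_⟩
    have h1 : QuotBA.quotMk J c ≤ QuotBA.quotMk J p := by
      rw [← inf_eq_left, ← quotMk_inf, inf_eq_left.2 hc]
    rcases h.le_iff.1 h1 with h2 | h2
    · exact Or.inl (quotMk_bot_iff.1 h2)
    · refine Or.inr (quotMk_bot_iff.1 ?_)
      rw [quotMk_sdiff, h2, sdiff_self]
  · rintro ⟨h1, h2⟩
    refine ⟨fun h => h1 (quotMk_bot_iff.1 h), fun x hx => ?_⟩
    obtain ⟨c, rfl⟩ := quotMk_surj x
    rcases h2 (p ⊓ c) inf_le_left with h3 | h3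
    · have h4 : QuotBA.quotMk J (p ⊓ c) = ⊥ := quotMk_bot_iff.2 h3
      rw [quotMk_inf, inf_eq_right.2 hx.le] at h4
      exact h4
    · have h4 : QuotBA.quotMk J (p \ (p ⊓ c)) = ⊥ := quotMk_bot_iff.2 h3
      rw [quotMk_sdiff, quotMk_inf, inf_eq_right.2 hx.le, sdiff_eq_bot_iff] at h4
      exact absurd h4 (not_le_of_gt hx)

theorem quotMk_finset_sup {J : Ideal (AsBoolRing B)} (s : Finset B) :
    QuotBA.quotMk J (s.sup id) = s.sup (QuotBA.quotMk J) := by
  classical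
  induction s using Finset.induction_on with
  | empty =>
    rw [Finset.sup_empty, Finset.sup_empty]
    exact quotMk_bot_iff.2 (mem_st.2 (by rw [toBoolRing_bot]; exact J.zero_mem))
  | insert a s ha ih =>
    rw [Finset.sup_insert, Finset.sup_insert, quotMk_sup, ih, id]

theorem st_succIdeal (J : Ideal (AsBoolRing B)) :
    st (QuotBA.succIdeal J) = SA.derive (st J) := by
  classical
  ext b
  have h0 : b ∈ st (QuotBA.succIdeal J) ↔ QuotBA.IsFiniteJoinOfAtoms (QuotBA.quotMk J b) := Iff.rfl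
  rw [h0]
  constructor
  · rintro ⟨s, hs, hb⟩
    choose f hf using (quotMk_surj (J := J))
    refine ⟨s.image f, ?_, ?_⟩
    · intro p hp
      obtain ⟨a, ha, rfl⟩ := Finset.mem_image.1 hp
      rw [← isAtom_iff, hf]
      exact hs a ha
    · rw [← quotMk_eq_iff, hb, quotMk_finset_sup, Finset.sup_image]
      refine Finset.sup_congr rfl fun a _ => ?_
      rw [Function.comp_apply, hf, id]
  · rintro ⟨s, hs, hb⟩
    refine ⟨s.image (QuotBA.quotMk J), ?_, ?_⟩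
    · intro a ha
      obtain ⟨p, hp, rfl⟩ := Finset.mem_image.1 ha
      exact isAtom_iff.2 (hs p hp)
    · rw [quotMk_eq_iff.2 hb, quotMk_finset_sup, Finset.sup_image]
      rfl

theorem st_iSup {ι : Type} [Nonempty ι] (J : ι → Ideal (AsBoolRing B))
    (hd : Directed (· ≤ ·) J) : st (⨆ i, J i) = {b | ∃ i, b ∈ st (J i)} := by
  ext b
  exact Submodule.mem_iSup_of_directed J hd

theorem st_cbIdeal (β : Ordinal.{0}) : st (QuotBA.cbIdeal B β) = SA.cbIdeal B β := by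
  induction β using Ordinal.limitRecOn with
  | zero =>
    rw [SA.cbIdeal_zero]
    ext b
    rw [mem_st, QuotBA.cbIdeal, Ordinal.limitRecOn_zero, Ideal.mem_bot, Set.mem_singleton_iff,
      ← toBoolRing_bot, toBoolRing_inj]
  | add_one β ih =>
    rw [SA.cbIdeal_succ, ← ih, ← st_succIdeal]
    rw [QuotBA.cbIdeal, Ordinal.limitRecOn_add_one]
    rfl
  | limit l hl ih =>
    rw [SA.cbIdeal_limit l hl]
    have h1 : QuotBA.cbIdeal B l = ⨆ γ : Set.Iio l, QuotBA.cbIdeal B γ.1 := by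
      rw [QuotBA.cbIdeal, Ordinal.limitRecOn_limit _ _ _ _ hl]
      rfl
    rw [h1]
    ext b
    have hmono : ∀ γ γ' : Set.Iio l, γ ≤ γ' → QuotBA.cbIdeal B γ.1 ≤ QuotBA.cbIdeal B γ'.1 := by
      intro γ γ' h x hx
      have h2 : ofBoolRing x ∈ st (QuotBA.cbIdeal B γ.1) := hx
      rw [ih γ.1 γ.2] at h2
      have h3 := SA.cbIdeal_mono (show γ.1 ≤ γ'.1 from h) h2
      rw [← ih γ'.1 γ'.2] at h3
      exact h3
    have hne : Nonempty (Set.Iio l) := ⟨⟨0, hl.bot_lt⟩⟩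
    have h2 : b ∈ st (⨆ γ : Set.Iio l, QuotBA.cbIdeal B γ.1) ↔
        ∃ γ : Set.Iio l, toBoolRing b ∈ QuotBA.cbIdeal B γ.1 :=
      Submodule.mem_iSup_of_directed _ (fun γ γ' => ⟨max γ γ', hmono _ _ (le_max_left _ _),
        hmono _ _ (le_max_right _ _)⟩)
    rw [h2]
    constructor
    · rintro ⟨γ, h3⟩
      refine ⟨γ.1, γ.2, ?_⟩
      rw [← ih γ.1 γ.2]
      exact h3
    · rintro ⟨γ, h3, h4⟩
      rw [← ih γ h3] at h4
      exact ⟨⟨γ, h3⟩, h4⟩

theorem numAtoms_st (J : Ideal (AsBoolRing B)) (hI : SA.IsIdeal (st J)) :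
    SA.numAtoms (st J) = #{a : QuotBA.QuotAlg B J // IsAtom a} := by
  unfold SA.numAtoms
  have hreq : Equivalence fun p q : {p : B // SA.AtomMod (st J) p} =>
      symmDiff p.1 q.1 ∈ st J :=
    ⟨fun p => hI.equivalence.refl _, fun h => hI.equivalence.symm h,
      fun h h' => hI.equivalence.trans h h'⟩
  refine mk_congr (Equiv.ofBijective (Quot.lift
    (fun p : {p : B // SA.AtomMod (st J) p} =>
      (⟨QuotBA.quotMk J p.1, isAtom_iff.2 p.2⟩ : {a : QuotBA.QuotAlg B J // IsAtom a}))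
    (fun p q h => Subtype.ext (quotMk_eq_iff.2 h))) ⟨?_, ?_⟩)
  · intro x y
    obtain ⟨p, rfl⟩ := Quot.exists_rep x
    obtain ⟨q, rfl⟩ := Quot.exists_rep y
    intro h
    exact Quot.sound (quotMk_eq_iff.1 (congrArg Subtype.val h))
  · rintro ⟨a, ha⟩
    obtain ⟨p, rfl⟩ := quotMk_surj a
    exact ⟨Quot.mk _ ⟨p, isAtom_iff.1 ha⟩, rfl⟩

theorem finiteMod_st (J : Ideal (AsBoolRing B)) :
    SA.FiniteMod (st J) ↔ Finite (QuotBA.QuotAlg B J) := by
  unfold SA.FiniteMod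
  refine Equiv.finite_iff (Equiv.ofBijective (Quot.lift
    (fun p : B => QuotBA.quotMk J p) (fun p q h => quotMk_eq_iff.2 h)) ⟨?_, ?_⟩)
  · intro x y
    obtain ⟨p, rfl⟩ := Quot.exists_rep x
    obtain ⟨q, rfl⟩ := Quot.exists_rep y
    intro h
    exact Quot.sound (quotMk_eq_iff.1 h)
  · intro a
    obtain ⟨p, rfl⟩ := quotMk_surj a
    exact ⟨Quot.mk _ p, rfl⟩

theorem hasCardSeq {κ : Cardinal.{0}} {δ : Ordinal.{0}}
    (h : QuotBA.HasCardinalSequence B κ δ) : SA.HasCardSeq B κ δ := by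
  obtain ⟨⟨β, hβ⟩, ⟨h1, h2⟩, h3, h4⟩ := h
  have hI : ∀ β, SA.IsIdeal (st (QuotBA.cbIdeal B β)) := fun β => by
    rw [st_cbIdeal]
    exact SA.cbIdeal_isIdeal β
  refine ⟨⟨β, ?_⟩, ?_, ?_, ?_, ?_⟩
  · rw [← st_cbIdeal, hβ]
    ext b
    simp [mem_st]
  · rw [← st_cbIdeal, finiteMod_st]
    exact h1
  · intro β' hβ'
    rw [← st_cbIdeal, finiteMod_st]
    exact fun h => absurd (h2 h) (not_le_of_gt hβ')
  · intro β' hβ'
    rw [← st_cbIdeal, numAtoms_st _ (hI β')]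
    exact h3 β' hβ'
  · rw [← st_cbIdeal, numAtoms_st _ (hI δ)]
    exact h4

theorem propertyP (h : QuotBA.PropertyP B) : SA.PropertyP B := by
  intro C _ f hf hC
  let e : QuotBA.QuotAlg B (RingHom.ker f.asBoolRing) ≃o C :=
    (QuotBA.orderIsoOfRingEquiv (RingHom.quotientKerEquivOfSurjective (f := f.asBoolRing) hf)).trans
      (OrderIso.asBoolAlgAsBoolRing _)
  obtain ⟨e'⟩ := h (RingHom.ker f.asBoolRing) (e.symm.toEquiv.uncountable_iff.1 hC)
  exact ⟨e'.symm.trans e⟩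

/-- Under Martin's Axiom no such algebra exists. -/
theorem no_algebra (hMA : SA.MartinAxiomAlephOne) {δ : Ordinal.{0}} (h1 : 1 < δ) (hδ : δ < ω₁) :
    ¬ ∃ (B : Type) (_ : BooleanAlgebra B), QuotBA.PropertyP B ∧
      QuotBA.HasCardinalSequence B ℵ₁ δ := by
  rintro ⟨B, _, hP, hB⟩
  exact SA.main hMA h1 hδ (propertyP hP) (hasCardSeq hB)

end Pool.Agent.Helper33.QBConv
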