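import Mathlib

/-!
# Project QB: the sentence

The sentence is stated for a set `O` with a relation `lt` (the ordinals below `ω₁`) and for
families `S1`, `S2`, `S3` of subsets of `O`, of binary relations on `O` and of families of subsets
of `O` over which its second (and third) order quantifiers range.  For the full families this is
the usual meaning; for the families of all the sets which belong to a transitive model `M` of ZFC
this is the meaning in `M`.
-/

set_option autoImplicit false

namespace Pool.Agent.Helper33.QB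

open Set

universe u

variable {O : Type u}

/-- `E` is countable, in the sense of `S2`: some relation in `S2` maps `E` injectively into the set
of the finite ordinals. -/
def CtbIn (lt : O → O → Prop) (S2 : Set (O → O → Prop)) (E : Set O) : Prop :=
  ∃ F ∈ S2, (∀ x ∈ E, ∃ y, {z | lt z y}.Finite ∧ F x y) ∧
    ∀ x ∈ E, ∀ x' ∈ E, ∀ y, F x y → F x' y → x = x'

/-- `R` is a ring of subsets of `O` which separates the points of `O`; `r` is a rank function: each
nonempty member of `R` has a point of maximal rank, only finitely many of them, and every member of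
`R` which contains `x` contains points `y ≠ x` of rank at least `β`, for each `β` below the rank
of `x`.  (So `R` consists of the compact open subsets of a locally compact scattered space, whose
Cantor-Bendixson rank is `r`.) -/
structure RRing (lt : O → O → Prop) (R : Set (Set O)) (r : O → O) : Prop where
  emp : ∅ ∈ R
  un : ∀ K ∈ R, ∀ K' ∈ R, K ∪ K' ∈ R
  df : ∀ K ∈ R, ∀ K' ∈ R, K \ K' ∈ R
  cov : ∀ x, ∃ K ∈ R, x ∈ K
  sep : ∀ x y, x ≠ y → ∃ K ∈ R, x ∈ K ∧ y ∉ K
  top : ∀ K ∈ R, K.Nonempty → ∃ x ∈ K, (∀ y ∈ K, ¬ lt (r x) (r y)) ∧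
    {y | y ∈ K ∧ r y = r x}.Finite
  ex : ∀ K ∈ R, ∀ x ∈ K, ∀ β, lt β (r x) → ∃ y ∈ K, y ≠ x ∧ ¬ lt (r y) β

/-- The sentence: `(O, lt)` is `ω₁` and there is a locally compact, locally countable scattered
topology on `O` (given by the ring `R` of its compact open sets and its rank function `r`) of the
height `a`, each level of which is uncountable, such that `O` is homeomorphic to each of its
uncountable closed subsets. -/
structure Sent (lt : O → O → Prop) (a : O) (S1 : Set (Set O)) (S2 : Set (O → O → Prop))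
    (S3 : Set (Set (Set O))) : Prop where
  wo : IsWellOrder O lt
  seg : ∀ x, CtbIn lt S2 {y | lt y x}
  unc : ¬ CtbIn lt S2 univ
  alg : ∃ R ∈ S3, ∃ r : O → O, (fun x y => y = r x) ∈ S2 ∧ RRing lt R r ∧
    (∀ x, lt (r x) a) ∧ (∀ K ∈ R, CtbIn lt S2 K) ∧ (∀ β, lt β a → ¬ CtbIn lt S2 {x | r x = β}) ∧
    ∀ E ∈ S1, (∀ x, x ∉ E → ∃ K ∈ R, x ∈ K ∧ K ∩ E = ∅) → ¬ CtbIn lt S2 E →
      ∃ h : O → O, (fun x y => y = h x) ∈ S2 ∧ BijOn h univ E ∧
        (∀ K ∈ R, ∃ K' ∈ R, h '' K = K' ∩ E) ∧ ∀ K' ∈ R, ∃ K ∈ R, h '' K = K' ∩ E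

/-- The order type of the set of the predecessors of `a` is `α`. -/
def OrdT (lt : O → O → Prop) (a : O) (α : Ordinal.{0}) : Prop :=
  ∃ f : O → Ordinal.{0}, BijOn f {x | lt x a} (Iio α) ∧
    ∀ x y, lt x a → lt y a → (lt x y ↔ f x < f y)

/-! ### The meaning in a transitive set -/

/-- The set of the members of `w`, as a type. -/
abbrev Mem (w : ZFSet.{0}) : Type 1 := {x : ZFSet.{0} // x ∈ w}

/-- Membership, as a relation on the members of `w`. -/
def memR (w : ZFSet.{0}) : Mem w → Mem w → Prop := fun x y => x.1 ∈ y.1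

/-- The subsets of `w` which belong to `M`. -/
def sets1 (M : Set ZFSet.{0}) (w : ZFSet.{0}) : Set (Set (Mem w)) :=
  {E | ∃ e ∈ M, ∀ x : Mem w, x.1 ∈ e ↔ x ∈ E}

/-- The binary relations on `w` which belong to `M`. -/
def sets2 (M : Set ZFSet.{0}) (w : ZFSet.{0}) : Set (Mem w → Mem w → Prop) :=
  {F | ∃ f ∈ M, ∀ x y : Mem w, ZFSet.pair x.1 y.1 ∈ f ↔ F x y}

/-- The families of subsets of `w` which belong to `M`. -/
def sets3 (M : Set ZFSet.{0}) (w : ZFSet.{0}) : Set (Set (Set (Mem w))) :=
  {R | ∃ ρ ∈ M, (∀ k ∈ ρ, k ⊆ w) ∧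
    ∀ K : Set (Mem w), K ∈ R ↔ ∃ k ∈ ρ, ∀ x : Mem w, x.1 ∈ k ↔ x ∈ K}

end Pool.Agent.Helper33.QB
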