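import Pool.Agent.Helper33.QB.Model
import Pool.Agent.Helper87.QB.Bridge

/-!
# MP_0eabd7_lc, Q2: the consistency of a positive answer

For every infinite countable indecomposable ordinal `α = ω ^ γ` there is a countable transitive
model of ZFC in which there is a Boolean algebra with property (P) and with the cardinal sequence
`⟨ℵ₁, ℵ₁, …, 1⟩` of length `α`.
-/

set_option autoImplicit false

open Cardinal Ordinal Set

namespace Pool.Agent.Results.MP_0eabd7_lc.CountableHeightModel

open Pool.Agent.Helper33.QB Pool.Agent.Helper93.QuotBA Pool.Agent.Helper32.HB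

theorem result : ∀ γ : Ordinal.{0}, 1 ≤ γ → γ < ω₁ →
    (∀ (O : Type) (lt : O → O → Prop) (a : O), OrdT lt a (ω ^ γ) → Sent lt a univ univ univ →
      ∃ (B : Type) (_ : BooleanAlgebra B), PropertyP B ∧ HasCardinalSequence B ℵ₁ (ω ^ γ)) ∧
    ∃ M : Set ZFSet.{0}, M.Countable ∧ IsTransModelZFC M ∧
      ∃ w ∈ M, ∃ a : Mem w, w.IsOrdinal ∧ OrdT (memR w) a (ω ^ γ) ∧
        Sent (memR w) a (sets1 M w) (sets2 M w) (sets3 M w) := by
  intro γ h1 h2
  have hα : Ind (ω ^ γ) := ind_opow h1 h2
  exact ⟨fun O lt a ho hS => zfc_bridge hα ho hS, exists_model hα⟩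

end Pool.Agent.Results.MP_0eabd7_lc.CountableHeightModel
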