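import Mathlib

/-!
# Project QB (MP_0eabd7, Q2): definitions

Consistency of Boolean algebras of countable height which are isomorphic to all their uncountable
quotients.  See the note of helper33 on the problem for the paper proof.
-/

set_option autoImplicit false

namespace Pool.Agent.Helper33.QB

open Set

universe v

variable {Ω : Type} {I : Type v}

/-! ### Ranked rings of sets -/

/-- `R` is a ring of subsets of `Y` (the compact open subsets of a locally compact scattered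
space) and `r` is its Cantor-Bendixson rank. -/
structure GR (Y : Set Ω) (R : Set (Set Ω)) (r : Ω → Ordinal.{0}) : Prop where
  sub : ∀ K ∈ R, K ⊆ Y
  emp : ∅ ∈ R
  un : ∀ K ∈ R, ∀ K' ∈ R, K ∪ K' ∈ R
  df : ∀ K ∈ R, ∀ K' ∈ R, K \ K' ∈ R
  cov : ∀ x ∈ Y, ∃ K ∈ R, x ∈ K
  sep : ∀ x ∈ Y, ∀ y ∈ Y, x ≠ y → ∃ K ∈ R, x ∈ K ∧ y ∉ K
  top : ∀ K ∈ R, K.Nonempty → ∃ x ∈ K, (∀ y ∈ K, r y ≤ r x) ∧ {y | y ∈ K ∧ r y = r x}.Finite
  ex : ∀ K ∈ R, ∀ x ∈ K, ∀ β, β < r x → ∃ y ∈ K, y ≠ x ∧ β ≤ r y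

/-- `C` is a closed subset of `Y`. -/
def Cl (Y : Set Ω) (R : Set (Set Ω)) (C : Set Ω) : Prop :=
  C ⊆ Y ∧ ∀ x ∈ Y, x ∉ C → ∃ K ∈ R, x ∈ K ∧ K ∩ C = ∅

/-- The trace of the ring `R` on `E`. -/
def tr (R : Set (Set Ω)) (E : Set Ω) : Set (Set Ω) := {O | ∃ K ∈ R, O = K ∩ E}

/-- `h` is a homeomorphism of `Y` onto a closed subset of `Y`. -/
structure CE (Y : Set Ω) (R : Set (Set Ω)) (h : Ω → Ω) : Prop where
  maps : ∀ x ∈ Y, h x ∈ Y
  inj : InjOn h Y
  img : ∀ K ∈ R, ∃ K' ∈ R, h '' K = K' ∩ h '' Y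
  pre : ∀ K ∈ R, {x | x ∈ Y ∧ h x ∈ K} ∈ R
  closed : Cl Y R (h '' Y)

/-- `f` maps `A` onto `B` and the ring `RA` onto the ring `RB`. -/
def Iso (A : Set Ω) (RA : Set (Set Ω)) (B : Set Ω) (RB : Set (Set Ω)) (f : Ω → Ω) : Prop :=
  BijOn f A B ∧ ∀ O, O ⊆ A → (O ∈ RA ↔ f '' O ∈ RB)

/-- `E` has points of every rank below `α` outside every member of `R`. -/
def Tall (α : Ordinal.{0}) (R : Set (Set Ω)) (E : Set Ω) (r : Ω → Ordinal.{0}) : Prop :=
  ∀ ρ, ρ < α → ∀ K ∈ R, ∃ b ∈ E, b ∉ K ∧ ρ ≤ r b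

/-- `K` has a point of rank `ρ` and all its other points have smaller rank. -/
def Piece (R : Set (Set Ω)) (r : Ω → Ordinal.{0}) (ρ : Ordinal.{0}) (K : Set Ω) : Prop :=
  K ∈ R ∧ ∃ x ∈ K, r x = ρ ∧ ∀ y ∈ K, y ≠ x → r y < ρ

/-- The restrictions on `α`: an infinite countable indecomposable ordinal. -/
structure Ind (α : Ordinal.{0}) : Prop where
  one : 1 < α
  add : ∀ β, β < α → ∀ γ, γ < α → β + γ < α
  ctb : (Iio α).Countable

/-! ### Labelled graphs and the partial action of the free group -/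

/-- `Acts G g x y`: there is a path from `x` to `y` in the labelled graph `G` with the value `g`
in the free group. -/
inductive Acts (G : I → Ω → Ω → Prop) : FreeGroup I → Ω → Ω → Prop
  | one (x : Ω) : Acts G 1 x x
  | fwd {g : FreeGroup I} {x y z : Ω} {i : I} :
      Acts G g x y → G i y z → Acts G (FreeGroup.of i * g) x z
  | bwd {g : FreeGroup I} {x y z : Ω} {i : I} :
      Acts G g x y → G i z y → Acts G ((FreeGroup.of i)⁻¹ * g) x z

/-- All letters of `G` are partial injections. -/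
def PF (G : I → Ω → Ω → Prop) : Prop :=
  (∀ i x y z, G i x y → G i x z → y = z) ∧ ∀ i x y z, G i x z → G i y z → x = y

/-- The action is free. -/
def Free (G : I → Ω → Ω → Prop) : Prop := ∀ g x, Acts G g x x → g = 1

/-- Only finitely many group elements take `K` to `K`. -/
def Proper (R : Set (Set Ω)) (G : I → Ω → Ω → Prop) : Prop :=
  ∀ K ∈ R, {g | ∃ x ∈ K, ∃ y ∈ K, Acts G g x y}.Finite

/-- Images and preimages of closed sets under the letters are closed. -/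
def ClSys (Y : Set Ω) (R : Set (Set Ω)) (G : I → Ω → Ω → Prop) : Prop :=
  (∀ i x y, G i x y → x ∈ Y ∧ y ∈ Y) ∧
  (∀ i C, Cl Y R C → Cl Y R {y | ∃ x ∈ C, G i x y}) ∧
  ∀ i C, Cl Y R C → Cl Y R {x | ∃ y ∈ C, G i x y}

/-- The graph `G` with the additional edges `x → h x` (`x ∈ A`) of the letter `i`. -/
def addE (G : I → Ω → Ω → Prop) (i : I) (A : Set Ω) (h : Ω → Ω) : I → Ω → Ω → Prop :=
  fun l x y => G l x y ∨ (l = i ∧ x ∈ A ∧ y = h x)

/-! ### Conditions -/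

/-- Raw conditions: a space with the carrier `Y`, the ring `R`, the rank `r`; a set `S` of letters
and the maps `h i` (`i ∈ S`). -/
@[ext] structure Cnd (Ω : Type) (I : Type v) where
  Y : Set Ω
  R : Set (Set Ω)
  r : Ω → Ordinal.{0}
  S : Set I
  h : I → Ω → Ω

/-- `p` is a condition, apart from the restrictions on the ranges of the maps. -/
structure Basic (α : Ordinal.{0}) (p : Cnd Ω I) : Prop where
  cY : p.Y.Countable
  cS : p.S.Countable
  gr : GR p.Y p.R p.r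
  ra : ∀ x, p.r x < α
  r0 : ∀ x, x ∉ p.Y → p.r x = 0
  ce : ∀ i ∈ p.S, CE p.Y p.R (p.h i)
  h0 : ∀ i, i ∉ p.S → p.h i = id
  h1 : ∀ i ∈ p.S, ∀ x, x ∉ p.Y → p.h i x = x

/-- The space of `p` is a clopen subspace of the space of `q`. -/
structure Cp (p q : Cnd Ω I) : Prop where
  sub : p.Y ⊆ q.Y
  ring : ∀ K, K ∈ p.R ↔ K ∈ q.R ∧ K ⊆ p.Y
  cut : ∀ K ∈ q.R, K ∩ p.Y ∈ q.R
  rk : ∀ x ∈ p.Y, q.r x = p.r x

/-- The graph of all maps of `p`. -/
def Full (p : Cnd Ω I) : I → Ω → Ω → Prop := fun i x y => i ∈ p.S ∧ x ∈ p.Y ∧ y = p.h i x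

/-- The graph of the letters of `p` on the new part of `q`. -/
def New (p q : Cnd Ω I) : I → Ω → Ω → Prop :=
  fun i x y => i ∈ p.S ∧ x ∈ q.Y ∧ x ∉ p.Y ∧ y = q.h i x

/-- `q` is stronger than `p`. -/
structure Le (q p : Cnd Ω I) : Prop where
  cp : Cp p q
  S : p.S ⊆ q.S
  h : ∀ i ∈ p.S, ∀ x ∈ p.Y, q.h i x = p.h i x
  out : ∀ i ∈ p.S, ∀ x ∈ q.Y, x ∉ p.Y → q.h i x ∉ p.Y
  fr : Free (New p q)
  pr : Proper q.R (New p q)

/-- `q` is the union of the decreasing sequence `p`. -/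
structure IsUn (q : Cnd Ω I) (p : ℕ → Cnd Ω I) : Prop where
  Y : q.Y = ⋃ n, (p n).Y
  R : ∀ K ∈ q.R, ∃ n, K ∈ (p n).R
  S : q.S = ⋃ n, (p n).S
  le : ∀ n, Le q (p n)

/-- Names: a condition and a set of explicit decisions `(p', a, ε)`. -/
structure NmD (Ω : Type) (I : Type v) where
  c : Cnd Ω I
  f : Set (Cnd Ω I × Ω × Bool)

/-- `p` decides the name `d` on its carrier. -/
def Dec (d : NmD Ω I) (p : Cnd Ω I) : Prop :=
  Le p d.c ∧ ∀ a ∈ p.Y, ∃ ε p', (p', a, ε) ∈ d.f ∧ Le p p'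

/-- The value of the name `d` which is decided by `p`. -/
def ev (d : NmD Ω I) (p : Cnd Ω I) : Set Ω :=
  {a | a ∈ p.Y ∧ ∃ p', (p', a, true) ∈ d.f ∧ Le p p'}

/-- In the forcing `V`, the name `d` denotes a closed unbounded set, below the condition `d.c`. -/
structure Nice (d : NmD Ω I) (V : Set (Cnd Ω I)) : Prop where
  dense : ∀ p ∈ V, Le p d.c → ∃ q ∈ V, Le q p ∧ Dec d q
  cons : ∀ p ∈ V, ∀ a p' p'', (p', a, true) ∈ d.f → (p'', a, false) ∈ d.f → Le p p' →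
    Le p p'' → False
  closed : ∀ p ∈ V, Dec d p → Cl p.Y p.R (ev d p)
  unb : ∀ p ∈ V, Dec d p → ∃ q ∈ V, Le q p ∧ Dec d q ∧ ∃ y ∈ ev d q, y ∉ p.Y

section Iter

variable [LinearOrder I]

open Classical in
/-- The restriction of `p` to the letters below `j`. -/
noncomputable def res (p : Cnd Ω I) (j : I) : Cnd Ω I where
  Y := p.Y
  R := p.R
  r := p.r
  S := {i | i ∈ p.S ∧ i < j}
  h := fun i => if i < j then p.h i else id

variable [WellFoundedLT I]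

/-- The conditions with all letters below `i`; `b` is the book-keeping function. -/
noncomputable def V (α : Ordinal.{0}) (b : I → NmD Ω I) : I → Set (Cnd Ω I) :=
  (wellFounded_lt (α := I)).fix fun i ih =>
    {p | Basic α p ∧ ∀ j ∈ p.S, ∃ hj : j < i, Nice (b j) (ih j hj) ∧ Dec (b j) (res p j) ∧
      p.h j '' p.Y = ev (b j) (res p j)}

theorem mem_V {α : Ordinal.{0}} {b : I → NmD Ω I} {i : I} {p : Cnd Ω I} :
    p ∈ V α b i ↔ Basic α p ∧ ∀ j ∈ p.S, j < i ∧ Nice (b j) (V α b j) ∧ Dec (b j) (res p j) ∧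
      p.h j '' p.Y = ev (b j) (res p j) := by
  rw [V, WellFounded.fix_eq]
  simp only [mem_ofPred_eq, exists_prop]

/-- All conditions. -/
def VT (α : Ordinal.{0}) (b : I → NmD Ω I) : Set (Cnd Ω I) := {p | ∃ i, p ∈ V α b i}

end Iter

/-! ### Semi-conditions: the lower bound of a sequence before the maps are completed -/

/-- The old part of a sequence of conditions. -/
def old (pn : ℕ → Cnd Ω I) : Set Ω := ⋃ n, (pn n).Y

/-- `s` is a space with maps, which extends the decreasing sequence `pn` by a closed discrete set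
`L = s.Y \ old pn` of new points, on which the letters act freely. -/
structure Semi (α : Ordinal.{0}) (pn : ℕ → Cnd Ω I) (s : Cnd Ω I) : Prop where
  basic : Basic α s
  S : s.S = ⋃ n, (pn n).S
  cp : ∀ n, Cp (pn n) s
  h : ∀ n, ∀ i ∈ (pn n).S, ∀ x ∈ (pn n).Y, s.h i x = (pn n).h i x
  out : ∀ n, ∀ i ∈ (pn n).S, ∀ x ∈ s.Y, x ∉ (pn n).Y → s.h i x ∉ (pn n).Y
  fin : ∀ K ∈ s.R, (K \ old pn).Finite
  LL : ∀ i ∈ s.S, ∀ x ∈ s.Y, x ∉ old pn → s.h i x ∉ old pn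
  acc : ∀ i ∈ s.S, ∀ y ∈ s.h i '' s.Y, y ∉ old pn → ∀ K ∈ s.R, y ∈ K →
    ∃ z ∈ K, z ∈ s.h i '' s.Y ∧ z ∈ old pn
  frL : Free fun i x y => i ∈ s.S ∧ x ∈ s.Y ∧ x ∉ old pn ∧ y = s.h i x
  pr : ∀ n, ∀ K ∈ s.R, {g | ∃ x ∈ K, ∃ y ∈ K,
    Acts (fun i x y => i ∈ (pn n).S ∧ x ∈ old pn ∧ x ∉ (pn n).Y ∧ y = s.h i x) g x y}.Finite
  fr : ∀ n, Free fun i x y => i ∈ (pn n).S ∧ x ∈ old pn ∧ x ∉ (pn n).Y ∧ y = s.h i x

section Bel

variable [LinearOrder I]

/-- The graph on `q.Y \ old pn`: the letters of `s` below `j` act by the maps of `q`, the other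
letters of `s` act on the new points of `s` only. -/
def BG (pn : ℕ → Cnd Ω I) (s : Cnd Ω I) (j : I) (q : Cnd Ω I) : I → Ω → Ω → Prop :=
  fun i x y => i ∈ s.S ∧ x ∉ old pn ∧
    ((i < j ∧ x ∈ q.Y ∧ y = q.h i x) ∨ (j ≤ i ∧ x ∈ s.Y ∧ y = s.h i x))

/-- `q` is a condition with the letters below `j` which extends the semi-condition `s`. -/
structure Bel (pn : ℕ → Cnd Ω I) (s : Cnd Ω I) (j : I) (q : Cnd Ω I) : Prop where
  cp : Cp s q
  S : ∀ i ∈ s.S, i < j → i ∈ q.S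
  h : ∀ i ∈ s.S, i < j → ∀ x ∈ s.Y, q.h i x = s.h i x
  out : ∀ i ∈ s.S, i < j → ∀ x ∈ q.Y, x ∉ old pn → q.h i x ∉ old pn
  fr : Free (BG pn s j q)
  pr : Proper q.R (BG pn s j q)

end Bel

end Pool.Agent.Helper33.QB
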