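import Pool.Agent.Helper61.QB.Order
import Pool.Agent.Helper33.QB.Sent
import Pool.Agent.Helper32.HB.Pnt
import Pool.Agent.Helper32.HB.Cho

/-!
# Project QB: the forcing poset, names, the requirements on the generic sequence, the model
-/

set_option autoImplicit false

namespace Pool.Agent.Helper33.QB

open Set Pool.Agent.Helper33.HMG Pool.Agent.Helper32.HB

universe u

/-! ### The forcing poset -/

/-- The forcing poset: all conditions. -/
def CP (Ω : Type) (α : Ordinal.{0}) (b : Ordinal.{0} → NmD Ω Ordinal.{0}) : Type 1 :=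
  {p : Cnd Ω Ordinal.{0} // p ∈ VT α b}

theorem CP.basic {Ω : Type} {α : Ordinal.{0}} {b : Ordinal.{0} → NmD Ω Ordinal.{0}}
    (p : CP Ω α b) : Basic α p.1 := by
  obtain ⟨i, hi⟩ := p.2
  exact (mem_V.1 hi).1

instance {Ω : Type} {α : Ordinal.{0}} {b : Ordinal.{0} → NmD Ω Ordinal.{0}} :
    Preorder (CP Ω α b) where
  le q p := Le q.1 p.1
  le_refl p := Le.refl' p.basic.gr
  le_trans r q p h1 h2 := Le.trans' r.basic q.basic h1 h2

theorem CP.le_def {Ω : Type} {α : Ordinal.{0}} {b : Ordinal.{0} → NmD Ω Ordinal.{0}}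
    {p q : CP Ω α b} : q ≤ p ↔ Le q.1 p.1 := Iff.rfl

/-- The empty condition. -/
def emp {Ω : Type} {I : Type u} : Cnd Ω I := ⟨∅, {∅}, fun _ => 0, ∅, fun _ => id⟩

theorem emp_basic {Ω : Type} {I : Type u} {α : Ordinal.{0}} (hα : Ind α) :
    Basic α (emp : Cnd Ω I) where
  cY := countable_empty
  cS := countable_empty
  gr :=
    { sub := by rintro K rfl; exact le_rfl
      emp := rfl
      un := by rintro K rfl K' rfl; exact union_self _
      df := by rintro K rfl K' rfl; exact Set.sdiff_self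
      cov := fun x hx => hx.elim
      sep := fun x hx => hx.elim
      top := by rintro K rfl h; exact absurd h not_nonempty_empty
      ex := by rintro K rfl x hx; exact hx.elim }
  ra := fun _ => zero_lt_one.trans hα.one
  r0 := fun _ _ => rfl
  ce := fun i hi => hi.elim
  h0 := fun _ _ => rfl
  h1 := fun i hi => hi.elim

theorem emp_mem {Ω : Type} {α : Ordinal.{0}} (hα : Ind α)
    (b : Ordinal.{0} → NmD Ω Ordinal.{0}) : (emp : Cnd Ω Ordinal.{0}) ∈ VT α b :=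
  ⟨0, mem_V.2 ⟨emp_basic hα, fun _ hj => hj.elim⟩⟩

theorem le_emp {Ω : Type} {I : Type u} {α : Ordinal.{0}} {p : Cnd Ω I} (hp : Basic α p) :
    Le p emp := by
  have hN : ∀ g x y, Acts (New (emp : Cnd Ω I) p) g x y → g = 1 := by
    intro g x y h
    induction h with
    | one x => rfl
    | fwd _ h _ => exact h.1.elim
    | bwd _ h _ => exact h.1.elim
  exact
    { cp :=
        { sub := empty_subset _
          ring := by
            intro K
            constructor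
            · rintro rfl
              exact ⟨hp.gr.emp, le_rfl⟩
            · rintro ⟨-, h⟩
              exact subset_empty_iff.1 h
          cut := by
            intro K _
            change K ∩ ∅ ∈ _
            rw [inter_empty]
            exact hp.gr.emp
          rk := fun x hx => hx.elim }
      S := empty_subset _
      h := fun i hi => hi.elim
      out := fun i hi => hi.elim
      fr := fun g x h => hN g x x h
      pr := by
        intro K _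
        refine (finite_singleton (1 : FreeGroup I)).subset ?_
        rintro g ⟨x, -, y, -, h⟩
        exact hN g x y h }

instance {Ω : Type} {α : Ordinal.{0}} [hα : Fact (Ind α)]
    {b : Ordinal.{0} → NmD Ω Ordinal.{0}} : OrderTop (CP Ω α b) where
  top := ⟨emp, emp_mem hα.out b⟩
  le_top p := le_emp p.basic

/-- The book-keeping function `b` takes every bounded name as its value unboundedly often. -/
def Book {Ω : Type} (α : Ordinal.{0}) (b : Ordinal.{0} → NmD Ω Ordinal.{0}) : Prop :=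
  ∀ (d : NmD Ω Ordinal.{0}) (j : Ordinal.{0}), Basic α d.c → (∀ l ∈ d.c.S, l < j) →
    (∀ t ∈ d.f, Basic α t.1 ∧ ∀ l ∈ t.1.S, l < j) → ∀ j', ∃ i ≥ j', b i = d

/-- The stage `j` is closed for the name `inn` of a closed unbounded set, below `p0`. -/
structure Closed {Ω : Type} {α : Ordinal.{0}} {b : Ordinal.{0} → NmD Ω Ordinal.{0}}
    (inn : CP Ω α b → Ω → Prop) (p0 : CP Ω α b) (j : Ordinal.{0}) : Prop where
  mem : p0.1 ∈ V α b j
  dec : ∀ p : CP Ω α b, p.1 ∈ V α b j → ∀ x, ∃ q ≤ p, q.1 ∈ V α b j ∧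
    (inn q x ∨ ∀ q' ≤ q, ¬ inn q' x)
  cl : ∀ p : CP Ω α b, p.1 ∈ V α b j → p ≤ p0 → ∀ x ∈ p.1.Y, (∀ q ≤ p, ¬ inn q x) →
    ∃ q ≤ p, q.1 ∈ V α b j ∧ ∃ K ∈ q.1.R, x ∈ K ∧ ∀ q' ≤ q, ∀ c ∈ K, ¬ inn q' c
  unb : ∀ p : CP Ω α b, p.1 ∈ V α b j → p ≤ p0 → ∃ q ≤ p, q.1 ∈ V α b j ∧
    ∃ y ∈ q.1.Y, y ∉ p.1.Y ∧ inn q y

/-- The name with the explicit decisions of the conditions of the stage `j`. -/
def nmOf {Ω : Type} {α : Ordinal.{0}} {b : Ordinal.{0} → NmD Ω Ordinal.{0}}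
    (inn : CP Ω α b → Ω → Prop) (p0 : CP Ω α b) (j : Ordinal.{0}) : NmD Ω Ordinal.{0} where
  c := p0.1
  f := {t | ∃ p : CP Ω α b, p.1 ∈ V α b j ∧ t.1 = p.1 ∧
    ((t.2.2 = true ∧ inn p t.2.1) ∨ (t.2.2 = false ∧ ∀ q ≤ p, ¬ inn q t.2.1))}

/-! ### Names -/

section Names

variable {Ω : Type} [LinearOrder Ω] [WellFoundedLT Ω]

/-- The position of `x`. -/
noncomputable def ot (x : Ω) : Ordinal.{0} := Ordinal.typein (fun x y : Ω => x < y) x

/-- The element `x` of the well-ordered set, as a set: the set of its predecessors. -/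
noncomputable def ps : Ω → PSet.{0} :=
  (wellFounded_lt (α := Ω)).fix fun x ih => ⟨{y : Ω // y < x}, fun y => ih y.1 y.2⟩

theorem ps_eq (x : Ω) : ps x = ⟨{y : Ω // y < x}, fun y => ps y.1⟩ := by
  rw [ps, WellFounded.fix_eq]

/-- Sets of elements. -/
noncomputable def psS (K : Set Ω) : PSet.{0} := ⟨K, fun x => ps x.1⟩

/-- A relation which maps the countable set `K` injectively into the finite ordinals. -/
def injR (K : Set Ω) (x y : Ω) : Prop :=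
  x ∈ K ∧ ∃ h : K.Countable, ot y = ((countable_iff_exists_injOn.1 h).choose x : ℕ)

variable {P : Type 1} [Preorder P] [OrderTop P]

/-- The check name of `x`. -/
noncomputable def ck (x : Ω) : Nm P := chk (ps x)

/-- The check name of `K`. -/
noncomputable def ckS (K : Set Ω) : Nm P := chk (psS K)

/-- Ordered pairs. -/
def opN (σ τ : Nm P) : Nm P := upairN (upairN σ σ) (upairN σ τ)

/-- The name of a relation. -/
noncomputable def relN (G : Ω → Ω → Set P) : Nm P :=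
  .mk {z : (Ω × Ω) × P // z.2 ∈ G z.1.1 z.1.2} (fun z => opN (ck z.1.1.1) (ck z.1.1.2))
    (fun z => z.1.2)

/-- The name of an injection of a countable set. -/
noncomputable def injN (K : Set Ω) : Nm P := relN fun x y => {_p | injR K x y}

variable {α : Ordinal.{0}} [Fact (Ind α)] {b : Ordinal.{0} → NmD Ω Ordinal.{0}}

/-- The name of the ring. -/
noncomputable def ringN : Nm (CP Ω α b) :=
  .mk {z : Set Ω × CP Ω α b // z.1 ∈ z.2.1.R} (fun z => ckS z.1.1) (fun z => z.1.2)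

/-- The name of the rank function. -/
noncomputable def rankN : Nm (CP Ω α b) :=
  relN fun x y => {p | x ∈ p.1.Y ∧ ot y = p.1.r x}

/-- The name of the map of the letter `i`. -/
noncomputable def hN (i : Ordinal.{0}) : Nm (CP Ω α b) :=
  relN fun x y => {p | i ∈ p.1.S ∧ x ∈ p.1.Y ∧ y = p.1.h i x}

/-- The requirements. -/
inductive Rq0 : Type
  | om | ring | rank | upair | seg | ctb | un | df | cov | sep | top | ex | lvB | lvC | bdd | clo
  | meet | main | img | pre | rimg | rpre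
  deriving Countable

/-- The meaning of the requirements. -/
def Wq (a0 : Ω) : Rq0 ⊕ {x : Ω // x ≤ a0} → (ℕ → Nm (CP Ω α b)) → CP Ω α b →
    Nm (CP Ω α b) → Prop
  | .inr x, _, _, X => X = ck x.1
  | .inl .om, _, _, X => X = ckS (univ : Set Ω)
  | .inl .ring, _, _, X => X = ringN
  | .inl .rank, _, _, X => X = rankN
  | .inl .upair, v, _, X => X = upairN (v 0) (v 1)
  | .inl .seg, v, _, X => ∃ x : Ω, v 0 = ck x ∧ X = injN (Iio x)
  | .inl .ctb, v, _, X => ∃ K : Set Ω, v 0 = ckS K ∧ X = injN K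
  | .inl .un, v, _, X => ∃ K K' : Set Ω, v 0 = ckS K ∧ v 1 = ckS K' ∧ X = ckS (K ∪ K')
  | .inl .df, v, _, X => ∃ K K' : Set Ω, v 0 = ckS K ∧ v 1 = ckS K' ∧ X = ckS (K \ K')
  | .inl .cov, v, p, X => ∃ x : Ω, ∃ K ∈ p.1.R, v 0 = ck x ∧ x ∈ K ∧ X = ckS K
  | .inl .sep, v, p, X => ∃ x y : Ω, ∃ K ∈ p.1.R, v 0 = ck x ∧ v 1 = ck y ∧ x ∈ K ∧ y ∉ K ∧ X = ckS K
  | .inl .top, v, p, X => ∃ K ∈ p.1.R, ∃ x ∈ K, v 0 = ckS K ∧ (∀ y ∈ K, p.1.r y ≤ p.1.r x) ∧
      X = ck x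
  | .inl .ex, v, p, X => ∃ K ∈ p.1.R, ∃ x c : Ω, ∃ y ∈ K, v 0 = ckS K ∧ v 1 = ck x ∧ v 2 = ck c ∧
      y ≠ x ∧ ot c ≤ p.1.r y ∧ X = ck y
  | .inl .lvB, v, p, X => ∃ c : Ω, ∃ y ∈ p.1.Y, v 1 = ck c ∧ p.1.r y = ot c ∧ X = ck y ∧
      ∀ q ≤ p, ∀ z : Ω, ot z < Ordinal.omega0 → fmem (opN (ck y) (ck z)) (v 0) q →
        ∃ y' ∈ q.1.Y, y' ≠ y ∧ q.1.r y' = ot c ∧ fmem (opN (ck y') (ck z)) (v 0) q
  | .inl .lvC, v, p, X => ∃ c y z : Ω, ∃ y' ∈ p.1.Y, v 1 = ck c ∧ v 2 = ck y ∧ v 3 = ck z ∧ y' ≠ y ∧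
      p.1.r y' = ot c ∧ fmem (opN (ck y') (ck z)) (v 0) p ∧ X = ck y'
  | .inl .bdd, v, p, X => ∃ q, p ≤ q ∧ (∀ q' ≤ p, ∀ y : Ω, fmem (ck y) (v 0) q' → y ∈ q.1.Y) ∧
      X = injN q.1.Y
  | .inl .clo, v, p, X => ∃ x : Ω, x ∈ p.1.Y ∧ X = ck x ∧ (∀ q ≤ p, ¬ fmem (ck x) (v 0) q) ∧
      ∀ K : Set Ω, x ∈ K → ∀ q ≤ p, K ∈ q.1.R → ∃ q' ≤ q, ∃ c : Ω, c ∈ K ∧ fmem (ck c) (v 0) q'
  | .inl .meet, v, p, X => ∃ K : Set Ω, ∃ c ∈ K, v 1 = ckS K ∧ fmem (ck c) (v 0) p ∧ X = ck c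
  | .inl .main, v, p, X => ∃ i ∈ p.1.S, X = hN i ∧ ∀ q ≤ p, ∀ y ∈ q.1.Y,
      (y ∈ q.1.h i '' q.1.Y → fmem (ck y) (v 0) q) ∧
      (y ∉ q.1.h i '' q.1.Y → ∀ q' ≤ q, ¬ fmem (ck y) (v 0) q')
  | .inl .img, v, p, X => ∃ y : Ω, X = ck y ∧ fmem (opN (v 1) (ck y)) (v 0) p
  | .inl .pre, v, p, X => ∃ x : Ω, X = ck x ∧ fmem (opN (ck x) (v 1)) (v 0) p
  | .inl .rimg, v, p, X => ∃ K : Set Ω, ∃ K' ∈ p.1.R, v 1 = ckS K ∧ X = ckS K' ∧
      ∀ q ≤ p, ∀ x y : Ω, fmem (opN (ck x) (ck y)) (v 0) q → (x ∈ K ↔ y ∈ K')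
  | .inl .rpre, v, p, X => ∃ K' : Set Ω, ∃ K ∈ p.1.R, v 1 = ckS K' ∧ X = ckS K ∧
      ∀ q ≤ p, ∀ x y : Ω, fmem (opN (ck x) (ck y)) (v 0) q → (x ∈ K ↔ y ∈ K')

end Names

/-! ### The model -/

section Model

variable {Ω : Type} [LinearOrder Ω] [WellFoundedLT Ω] {α : Ordinal.{0}} [Fact (Ind α)]
  {b : Ordinal.{0} → NmD Ω Ordinal.{0}} {R : Type}
  {W : R → (ℕ → Nm (CP Ω α b)) → CP Ω α b → Nm (CP Ω α b) → Prop}

/-- The generic sequence meets the requirements. -/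
structure Gd (a0 : Ω) (g : Gen W) : Prop where
  unc : Uncountable Ω
  ota : ot a0 = α
  seg : ∀ x : Ω, (Iio x).Countable
  book : Book α b
  ch : ∀ τ ∈ g.N, chN τ ∈ g.N
  rq : ∀ (r : Rq0 ⊕ {x : Ω // x ≤ a0}) (t : List (Nm (CP Ω α b))), (∀ x ∈ t, x ∈ g.N) →
    ∃ k, (∃ x ∈ g.N, Wq a0 r (asg t) (g.pc k) x) ∨ ∀ q, q ≤ g.pc k → ∀ x, ¬ Wq a0 r (asg t) q x

/-- The elements of `Ω` with a check name in the fragment: they form `ω₁` of the model. -/
def OM (g : Gen W) : Type := {x : Ω // ck x ∈ g.N}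

/-- The order of `OM g`. -/
def ltM (g : Gen W) : OM g → OM g → Prop := fun x y => x.1 < y.1

/-- The subsets of `OM g` in the model. -/
def S1M (g : Gen W) : Set (Set (OM g)) :=
  {E | ∃ τ ∈ g.N, ∀ x : OM g, x ∈ E ↔ ∃ k, fmem (ck x.1) τ (g.pc k)}

/-- The relations on `OM g` in the model. -/
def S2M (g : Gen W) : Set (OM g → OM g → Prop) :=
  {F | ∃ τ ∈ g.N, ∀ x y : OM g, F x y ↔ ∃ k, fmem (opN (ck x.1) (ck y.1)) τ (g.pc k)}

/-- The families of subsets of `OM g` in the model. -/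
def S3M (g : Gen W) : Set (Set (Set (OM g))) :=
  {R | ∃ τ ∈ g.N, (∀ σ ∈ g.N, ∀ k, fmem σ τ (g.pc k) → ∀ ρ ∈ g.N, ∀ l, fmem ρ σ (g.pc l) →
      ∃ x : OM g, ∃ m, feq ρ (ck x.1) (g.pc m)) ∧
    ∀ K : Set (OM g), K ∈ R ↔ ∃ σ ∈ g.N, (∃ k, fmem σ τ (g.pc k)) ∧
      ∀ x : OM g, x ∈ K ↔ ∃ k, fmem (ck x.1) σ (g.pc k)}

/-- The ring of the generic space. -/
def RM (g : Gen W) : Set (Set (OM g)) :=
  {K | ∃ K0 : Set Ω, ckS K0 ∈ g.N ∧ (∃ k, K0 ∈ (g.pc k).1.R) ∧ ∀ x : OM g, x ∈ K ↔ x.1 ∈ K0}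

open Classical in
/-- The rank of `x` in the generic space. -/
noncomputable def rkM (g : Gen W) (x : Ω) : Ordinal.{0} :=
  if h : ∃ k, x ∈ (g.pc k).1.Y then (g.pc h.choose).1.r x else 0

open Classical in
/-- The rank function of the generic space. -/
noncomputable def rM (g : Gen W) (x : OM g) : OM g :=
  if h : ∃ y : OM g, ot y.1 = rkM g x.1 then h.choose else x

end Model

end Pool.Agent.Helper33.QB
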