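import Pool.Agent.Helper33.QB.Gd2

/-!
# Project QB, module MD4: countable sets of the model
-/

set_option autoImplicit false

namespace Pool.Agent.Helper33.QB

open Set Pool.Agent.Helper33.HMG Pool.Agent.Helper32.HB

variable {Ω : Type} [LinearOrder Ω] [WellFoundedLT Ω] {α : Ordinal.{0}} [Fact (Ind α)]
  {b : Ordinal.{0} → NmD Ω Ordinal.{0}} {R : Type}
  {W : R → (ℕ → Nm (CP Ω α b)) → CP Ω α b → Nm (CP Ω α b) → Prop} {a0 : Ω} {g : Gen W}

theorem h33_omega_le {α : Ordinal.{0}} (hα : Ind α) : Ordinal.omega0 ≤ α := by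
  have h : ∀ n : ℕ, (n : Ordinal.{0}) < α := by
    intro n
    induction n with
    | zero => exact_mod_cast zero_lt_one.trans hα.one
    | succ n ih =>
      rw [Nat.cast_succ]
      exact hα.add _ ih _ hα.one
  exact Ordinal.omega0_le.2 fun n => (h n).le

/-- The sets with a name of an injection. -/
theorem Gd.inj_ctb (hg : Gd a0 g) {K : Set Ω} (hK : K.Countable)
    (hN : (injN K : Nm (CP Ω α b)) ∈ g.N) {E : Set (OM g)} (hE : ∀ x ∈ E, x.1 ∈ K) :
    CtbIn (ltM g) (S2M g) E := by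
  have := hg.unc
  have hα : Ind α := Fact.out
  let f := (countable_iff_exists_injOn.1 hK).choose
  have hf : InjOn f K := (countable_iff_exists_injOn.1 hK).choose_spec
  have hrel : ∀ x y : OM g, (∃ k, fmem (opN (ck x.1) (ck y.1)) (injN K) (g.pc k)) ↔
      x.1 ∈ K ∧ ot y.1 = (f x.1 : ℕ) := by
    intro x y
    rw [injN, hg.rel hN]
    constructor
    · rintro ⟨k, p, ⟨h1, h2, h3⟩, -⟩
      exact ⟨h1, h3⟩
    · rintro ⟨h1, h2⟩
      exact ⟨0, g.pc 0, ⟨h1, hK, h2⟩, le_rfl⟩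
  refine ⟨fun x y => ∃ k, fmem (opN (ck x.1) (ck y.1)) (injN K) (g.pc k),
    ⟨injN K, hN, fun x y => Iff.rfl⟩, ?_, ?_⟩
  · intro x hx
    have hc : (Iio ((f x.1 : ℕ) : Ordinal.{0})).Countable := by
      have h1 : Iio ((f x.1 : ℕ) : Ordinal.{0}) ⊆ range fun n : ℕ => (n : Ordinal.{0}) := by
        intro β hβ
        obtain ⟨n, hn⟩ := Ordinal.lt_omega0.1 (lt_trans (mem_Iio.1 hβ) (Ordinal.natCast_lt_omega0 _))
        exact ⟨n, hn.symm⟩
      exact (countable_range _).mono h1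
    obtain ⟨y, hy⟩ := exists_ot (Ω := Ω) hc
    have h2 : ot y < ot a0 := by
      rw [hy, hg.ota]
      exact lt_of_lt_of_le (Ordinal.natCast_lt_omega0 _) (h33_omega_le hα)
    refine ⟨⟨y, hg.ck_mem (ot_lt.1 h2).le⟩, ?_, (hrel _ _).2 ⟨hE x hx, hy⟩⟩
    have h3 : (Iio y).Finite := by
      rw [← ot_fin, hy]
      exact Ordinal.natCast_lt_omega0 _
    exact Finite.of_finite_image (f := Subtype.val) (h3.subset (by rintro _ ⟨z, hz, rfl⟩; exact hz))
      Subtype.val_injective.injOn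
  · intro x hx x' hx' y h1 h2
    obtain ⟨h3, h4⟩ := (hrel _ _).1 h1
    obtain ⟨h5, h6⟩ := (hrel _ _).1 h2
    have h7 : (f x.1 : Ordinal.{0}) = f x'.1 := h4.symm.trans h6
    exact Subtype.ext (hf h3 h5 (by exact_mod_cast h7))

theorem Gd.seg_ctb (hg : Gd a0 g) (x : OM g) : CtbIn (ltM g) (S2M g) {y | ltM g y x} :=
  hg.inj_ctb (hg.seg x.1) (hg.injS x.2) fun _ hy => hy

theorem Gd.ring_ctb (hg : Gd a0 g) : ∀ K ∈ RM g, CtbIn (ltM g) (S2M g) K := by
  rintro K ⟨K0, hN, ⟨k, hk⟩, hK⟩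
  exact hg.inj_ctb ((g.pc k).basic.cY.mono ((g.pc k).basic.gr.sub K0 hk)) (hg.injK hN)
    fun x hx => (hK x).1 hx

end Pool.Agent.Helper33.QB
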