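import Pool.Agent.Helper14.QB.Gd3
import Pool.Agent.Helper33.QB.Gd4
import Pool.Agent.Helper13.QB.Gd5
import Pool.Agent.Helper13.QB.Gd6
import Pool.Agent.Helper9.QB.Gd8
import Pool.Agent.Helper9.QB.Gd9
import Pool.Agent.Helper18.QB.Gd10

/-!
# Project QB, module MD11: the sentence in the generic extension, first form
-/

set_option autoImplicit false

namespace Pool.Agent.Helper33.QB

open Set Pool.Agent.Helper33.HMG Pool.Agent.Helper32.HB

variable {Ω : Type} [LinearOrder Ω] [WellFoundedLT Ω] {α : Ordinal.{0}} [hα : Fact (Ind α)]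
  {b : Ordinal.{0} → NmD Ω Ordinal.{0}} {R : Type}
  {W : R → (ℕ → Nm (CP Ω α b)) → CP Ω α b → Nm (CP Ω α b) → Prop} {a0 : Ω} {g : Gen W}

theorem h33_wo (g : Gen W) : IsWellOrder (OM g) (ltM g) where
  trichotomous := by
    intro x y h1 h2
    exact Subtype.ext (le_antisymm (not_lt.1 h2) (not_lt.1 h1))
  wf := InvImage.wf (fun x : OM g => x.1) (wellFounded_lt (α := Ω))

theorem CtbIn.mono {O : Type} {lt : O → O → Prop} {S2 : Set (O → O → Prop)} {E E' : Set O}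
    (h : CtbIn lt S2 E) (hE : E' ⊆ E) : CtbIn lt S2 E' := by
  obtain ⟨F, hF, h1, h2⟩ := h
  exact ⟨F, hF, fun x hx => h1 x (hE hx), fun x hx x' hx' => h2 x (hE hx) x' (hE hx')⟩

/-- The sentence holds in the model, first form. -/
theorem Gd.sent (hg : Gd a0 g) :
    Sent (ltM g) ⟨a0, hg.ck_mem le_rfl⟩ (S1M g) (S2M g) (S3M g) := by
  have hunc := hg.unc
  have hr1 := hg.rring1
  have hr2 := hg.rring2
  have hlev : ∀ β : OM g, ltM g β ⟨a0, hg.ck_mem le_rfl⟩ →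
      ¬ CtbIn (ltM g) (S2M g) {x | rM g x = β} := fun β hβ => hg.level hβ
  refine ⟨h33_wo g, hg.seg_ctb, ?_, RM g, hg.ring_mem, rM g, hg.rank_mem,
    ⟨hr1.1, hr1.2.1, hr1.2.2.1, hr1.2.2.2.1, hr1.2.2.2.2, hr2.1, hr2.2⟩,
    fun x => (hg.ot_rM x).2, hg.ring_ctb, hlev, ?_⟩
  · intro hc
    obtain ⟨z, hz⟩ := exists_ot (Ω := Ω) (β := 0) (by
      have : Iio (0 : Ordinal.{0}) = ∅ := by
        ext x
        simp
      rw [this]
      exact countable_empty)
    have hz0 : z < a0 := by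
      rw [← ot_lt, hz, hg.ota]
      exact zero_lt_one.trans hα.out.one
    exact hlev ⟨z, hg.ck_mem hz0.le⟩ hz0 (hc.mono (subset_univ _))
  · intro E hE hcl hc
    obtain ⟨τ, hτ, hE'⟩ := hE
    obtain ⟨i, k, hi, hk, hs⟩ := hg.main hτ hE' hc hcl
    obtain ⟨h, hh, hh'⟩ := hg.map hi hk
    have hb := hg.bij hτ hE' hi hk hs hh'
    exact ⟨h, hh, hb, hg.homeo hi hk hh' hb⟩

end Pool.Agent.Helper33.QB
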