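import Pool.Agent.Helper54.QB.NameLemmas
import Pool.Agent.Helper38.QB.Gd1
import Pool.Agent.Helper55.QB.Poset2
import Pool.Agent.Helper6.QB.Ot

/-!
# Project QB, module MD2: points and ranks of the generic space
-/

set_option autoImplicit false

namespace Pool.Agent.Helper33.QB

open Set Pool.Agent.Helper33.HMG Pool.Agent.Helper32.HB

variable {Ω : Type} [LinearOrder Ω] [WellFoundedLT Ω] {α : Ordinal.{0}} [Fact (Ind α)]
  {b : Ordinal.{0} → NmD Ω Ordinal.{0}} {R : Type}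
  {W : R → (ℕ → Nm (CP Ω α b)) → CP Ω α b → Nm (CP Ω α b) → Prop} {a0 : Ω} {g : Gen W}

theorem Gd.rel (hg : Gd a0 g) {G : Ω → Ω → Set (CP Ω α b)} (hG : relN G ∈ g.N) (x y : OM g) :
    (∃ k, fmem (opN (ck x.1) (ck y.1)) (relN G) (g.pc k)) ↔
      ∃ k, ∃ p ∈ G x.1 y.1, g.pc k ≤ p := by
  constructor
  · rintro ⟨k, h⟩
    obtain ⟨⟨⟨⟨a, c⟩, p'⟩, hp'⟩, hi, l, hl, hl'⟩ := g.mem_req (hg.op x.2 y.2) hG h
    change p' ∈ G a c at hp'
    change g.pc l ≤ p' at hl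
    have h1 : feq (opN (ck x.1) (ck y.1)) (opN (ck a) (ck c)) (g.pc l) := hl'
    obtain ⟨h2, h3⟩ := feq_opN.1 h1
    rw [← h2, ← h3] at hp'
    exact ⟨l, p', hp', hl⟩
  · rintro ⟨k, p, hp, hk⟩
    exact ⟨k, fmem_relN.2 fun q hq => ⟨q, le_rfl, p, hp, hq.trans hk⟩⟩

/-- Every element of `OM g` is a point of the generic space. -/
theorem Gd.cov (hg : Gd a0 g) (x : OM g) :
    ∃ k, ∃ K ∈ (g.pc k).1.R, x.1 ∈ K ∧ ckS K ∈ g.N := by
  have := hg.unc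
  obtain ⟨l, X, hX, y, K, hK, h1, h2, rfl⟩ := hg.get (Sum.inl Rq0.cov) [ck x.1]
    (by simpa using x.2) (k := 0) (by
      intro l _
      obtain ⟨q, hq, hx⟩ := cp_point (b := b) Fact.out (g.pc l) x.1
      obtain ⟨K, hK, hxK⟩ := q.basic.gr.cov x.1 hx
      exact ⟨q, hq, ckS K, x.1, K, hK, rfl, hxK, rfl⟩)
  have h3 : x.1 = y := ck_inj h1
  exact ⟨l, K, hK, h3 ▸ h2, hX⟩

theorem Gd.memY (hg : Gd a0 g) (x : OM g) : ∃ k, x.1 ∈ (g.pc k).1.Y := by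
  obtain ⟨k, K, hK, hx, -⟩ := hg.cov x
  exact ⟨k, (g.pc k).basic.gr.sub K hK hx⟩

omit [LinearOrder Ω] [WellFoundedLT Ω] in
theorem rkM_eq {x : Ω} {k : ℕ} (hx : x ∈ (g.pc k).1.Y) : rkM g x = (g.pc k).1.r x := by
  have h : ∃ k, x ∈ (g.pc k).1.Y := ⟨k, hx⟩
  unfold rkM
  rw [dif_pos h]
  have h1 := (CP.le_def.1 (g.pc_le (le_max_left h.choose k))).cp.rk x h.choose_spec
  have h2 := (CP.le_def.1 (g.pc_le (le_max_right h.choose k))).cp.rk x hx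
  rw [← h1, ← h2]

theorem Gd.ot_rM (hg : Gd a0 g) (x : OM g) : ot (rM g x).1 = rkM g x.1 ∧ (rM g x).1 < a0 := by
  have := hg.unc
  obtain ⟨k, hk⟩ := hg.memY x
  have h1 : rkM g x.1 < α := by
    rw [rkM_eq hk]
    exact (g.pc k).basic.ra x.1
  have h1' : rkM g x.1 < ot a0 := lt_of_lt_of_eq h1 hg.ota.symm
  have hc : (Iio (rkM g x.1)).Countable := by
    have h2 : Iio (rkM g x.1) ⊆ (fun z : Ω => ot z) '' Iio a0 := by
      intro β hβ
      obtain ⟨z, hz⟩ := Ordinal.typein_surj (fun x y : Ω => x < y)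
        (lt_trans (lt_trans (mem_Iio.1 hβ) h1') (Ordinal.typein_lt_type (fun x y : Ω => x < y) a0))
      refine ⟨z, ?_, hz⟩
      rw [mem_Iio, ← ot_lt]
      exact lt_of_eq_of_lt (show ot z = β from hz) (lt_trans (mem_Iio.1 hβ) h1')
    exact ((hg.seg a0).image _).mono h2
  obtain ⟨y, hy⟩ := exists_ot (Ω := Ω) hc
  have hya : y < a0 := by
    rw [← ot_lt, hy]
    exact h1'
  have h : ∃ y : OM g, ot y.1 = rkM g x.1 := ⟨⟨y, hg.ck_mem hya.le⟩, hy⟩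
  have h3 : ot (rM g x).1 = rkM g x.1 := by
    unfold rM
    rw [dif_pos h]
    exact h.choose_spec
  refine ⟨h3, ?_⟩
  rw [← ot_lt, h3]
  exact h1'

end Pool.Agent.Helper33.QB
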