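import Pool.Agent.Helper33.QB.Gd4

/-!
# Project QB, module MD7: closed and unbounded sets of the model
-/

set_option autoImplicit false

namespace Pool.Agent.Helper33.QB

open Set Pool.Agent.Helper33.HMG Pool.Agent.Helper32.HB

variable {Ω : Type} [LinearOrder Ω] [WellFoundedLT Ω] {α : Ordinal.{0}} [Fact (Ind α)]
  {b : Ordinal.{0} → NmD Ω Ordinal.{0}} {R : Type}
  {W : R → (ℕ → Nm (CP Ω α b)) → CP Ω α b → Nm (CP Ω α b) → Prop} {a0 : Ω} {g : Gen W}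
  {τ : Nm (CP Ω α b)} {E : Set (OM g)}

theorem Gd.unb (hg : Gd a0 g) (hτ : τ ∈ g.N) (hE : ∀ x, x ∈ E ↔ ∃ k, fmem (ck x.1) τ (g.pc k))
    (hc : ¬ CtbIn (ltM g) (S2M g) E) :
    ∃ k, ∀ q ≤ g.pc k, ∃ q' ≤ q, ∃ y : Ω, y ∉ q.1.Y ∧ fmem (ck y) τ q' := by
  by_contra hcon
  push Not at hcon
  apply hc
  obtain ⟨l, X, hX, q, hlq, hq, rfl⟩ := hg.get (Sum.inl Rq0.bdd) [τ] (by simp [hτ]) (k := 0) (by
    intro l _
    obtain ⟨q, hq, h⟩ := hcon l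
    exact ⟨q, hq, injN q.1.Y, q, le_rfl, fun q' hq' y hy => by
      by_contra hy'
      exact h q' hq' y hy' hy, rfl⟩)
  refine hg.inj_ctb q.basic.cY hX fun x hx => ?_
  obtain ⟨k, hk⟩ := (hE x).1 hx
  exact hq (g.pc (max k l)) (g.pc_le (le_max_right _ _)) x.1
    (fmem_mono hk (g.pc_le (le_max_left _ _)))

theorem Gd.clo (hg : Gd a0 g) (hτ : τ ∈ g.N) (hE : ∀ x, x ∈ E ↔ ∃ k, fmem (ck x.1) τ (g.pc k))
    (hcl : ∀ x, x ∉ E → ∃ K ∈ RM g, x ∈ K ∧ K ∩ E = ∅) :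
    ∃ k, ∀ q ≤ g.pc k, ∀ x ∈ q.1.Y, (∀ q' ≤ q, ¬ fmem (ck x) τ q') →
      ∃ q' ≤ q, ∃ K ∈ q'.1.R, x ∈ K ∧ ∀ q'' ≤ q', ∀ c ∈ K, ¬ fmem (ck c) τ q'' := by
  by_contra hcon
  push Not at hcon
  obtain ⟨l, X, hX, x, hx, rfl, h1, h2⟩ := hg.get (Sum.inl Rq0.clo) [τ] (by simp [hτ])
    (k := 0) (by
      intro l _
      obtain ⟨q, hq, x, hx, h1, h2⟩ := hcon l
      refine ⟨q, hq, ck x, x, hx, rfl, h1, fun K hxK q1 hq1 hK => ?_⟩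
      obtain ⟨q2, hq2, c, hc, h3⟩ := h2 q1 hq1 K hK hxK
      exact ⟨q2, hq2, c, hc, h3⟩)
  have hxE : (⟨x, hX⟩ : OM g) ∉ E := by
    intro h
    obtain ⟨k, hk⟩ := (hE _).1 h
    exact h1 (g.pc (max k l)) (g.pc_le (le_max_right _ _)) (fmem_mono hk (g.pc_le (le_max_left _ _)))
  obtain ⟨K, ⟨K0, hN, ⟨k, hk⟩, hK⟩, hxK, hKE⟩ := hcl _ hxE
  have hx0 : x ∈ K0 := (hK _).1 hxK
  obtain ⟨m, X', hX', K1, c, hc, h3, h4, rfl⟩ := hg.get (Sum.inl Rq0.meet) [τ, ckS K0]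
    (by simp [hτ, hN]) (k := max k l) (by
      intro m hm
      have hK0 : K0 ∈ (g.pc m).1.R :=
        (((CP.le_def.1 (g.pc_le ((le_max_left _ _).trans hm))).cp.ring K0).1 hk).1
      obtain ⟨q, hq, c, hc, h3⟩ := h2 K0 hx0 (g.pc m) (g.pc_le ((le_max_right _ _).trans hm)) hK0
      exact ⟨q, hq, ck c, K0, c, hc, rfl, h3, rfl⟩)
  have h5 : K0 = K1 := ckS_inj h3
  have h6 : (⟨c, hX'⟩ : OM g) ∈ K ∩ E := ⟨(hK _).2 (h5 ▸ hc), (hE _).2 ⟨m, h4⟩⟩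
  rw [hKE] at h6
  exact h6

end Pool.Agent.Helper33.QB
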