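import Pool.Agent.Helper33.QB.Gd11
import Pool.Agent.Helper47.QB.Transfer
import Pool.Agent.Helper86.QB.Book

/-!
# Project QB, module MD13: the countable transitive model
-/

set_option autoImplicit false

namespace Pool.Agent.Helper33.QB

open Set Pool.Agent.Helper33.HMG Pool.Agent.Helper32.HB

theorem exists_model {α : Ordinal.{0}} (hα : Ind α) :
    ∃ M : Set ZFSet.{0}, M.Countable ∧ IsTransModelZFC M ∧ ∃ w ∈ M, ∃ a : Mem w,
      w.IsOrdinal ∧ OrdT (memR w) a α ∧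
        Sent (memR w) a (sets1 M w) (sets2 M w) (sets3 M w) := by
  obtain ⟨Ω, h1, h2, h3, h4⟩ := exists_omega1
  have := h3
  have : Fact (Ind α) := ⟨hα⟩
  obtain ⟨a0, ha0⟩ := exists_ot (Ω := Ω) hα.ctb
  obtain ⟨b, hb⟩ := exists_book Ω α
  obtain ⟨R, W, g, hg⟩ := exists_gd (b := b) h3 h4 ha0 hb
  exact ⟨g.M, g.countable_M, zfc_of_ch g hg.ch, hg.transfer hg.sent⟩

end Pool.Agent.Helper33.QB
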